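import Pool.Agent.Helper24.OP.PfTail
import Pool.Agent.Helper49.OP.MomEven
import Pool.Agent.Helper53.OP.Odd
import Pool.Agent.Helper62.OP.Loc
import Pool.Agent.Helper28.TL.Wo

/-!
# TL, block T4: the tails of the prime sum, variance bounded from below by a constant
-/

set_option autoImplicit false
open MeasureTheory Set Filter Topology
open Pool.Agent.Helper57.Zeta Pool.Agent.Helper57.LH Pool.Agent.Helper57.ED
open Pool.Agent.Helper54.LG (za zb qk SS MM)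
open Pool.Agent.Helper93.UG (zc sp)
open Pool.Agent.Helper69.UG (XX NX near far)
open Pool.Agent.Helper57.TX (QX DP rs)
open Pool.Agent.Helper57.NS (cnt)
open Pool.Agent.Helper62.NS (gm gm_succ gm_pos)
open Pool.Agent.Helper24.OP (gm_ge fac_gm dc_cont qx_mem qx_card rng_basic)
open Pool.Agent.Helper28.TL

namespace Pool.Agent.Helper60.TL

/-- T4: the tails of `Pf` -/
theorem pf_tailG {k d : ℝ} (hk : 0 < k) (hkd : k ≤ d / 100) (hd : 0 < d) (hd1 : d ≤ 1) {w0 : ℝ} (hw : 0 < w0) :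
    ∃ c C T₀ : ℝ, 0 < c ∧ 1 ≤ C ∧
    ∀ T R L e : ℝ, T₀ ≤ T → C ≤ L → Rng d T R L → 1 ≤ e → e ≤ 3 → ∀ F : Fam R L, F.B ≤ L ^ c → w0 ≤ Wf k T F →
      ENNReal.ofReal (1 / C * T) ≤ volume {t : ℝ | t ∈ Icc T (2 * T) ∧ e ≤ Pf k T F t} ∧
      ENNReal.ofReal (1 / C * T) ≤ volume {t : ℝ | t ∈ Icc T (2 * T) ∧ Pf k T F t ≤ -e} := by
  obtain ⟨T1, h1⟩ := Pool.Agent.Helper49.OP.mom_even
  obtain ⟨T2, h2⟩ := Pool.Agent.Helper62.OP.mom_odd
  obtain ⟨cl, K, hcl, hK, h3⟩ := Pool.Agent.Helper62.OP.loc_one (h := 1) one_pos le_rfl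
  obtain ⟨C5, T5, hC5, h5⟩ := Pool.Agent.Helper28.TL.H44.wo_le hk hkd hd hd1
  obtain ⟨N0, hN0⟩ : ∃ N0 : ℝ, N0 = (K : ℝ) * (1 + 1 / w0) := ⟨_, rfl⟩
  have hN00 : 0 ≤ N0 := by rw [hN0]; positivity
  obtain ⟨L0, hL0⟩ := eventually_atTop.mp ((tendsto_rpow_atTop (show (0 : ℝ) < d / 2 by positivity)).eventually_ge_atTop
    (16 * (N0 + 1)))
  obtain ⟨y0, hy0⟩ := eventually_atTop.mp ((tendsto_rpow_atTop (show (0 : ℝ) < d by positivity)).eventually_ge_atTop
    (4 * N0 ^ 2 * C5 / w0))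
  obtain ⟨T6, hT6⟩ := eventually_atTop.mp
    ((tendsto_rpow_atTop (show (0 : ℝ) < 7 / 16 by norm_num)).eventually_ge_atTop (32 * C5 * (K : ℝ) ^ 2))
  refine ⟨d / 2, max (max C5 (1 / cl * Real.exp (18 / w0))) (max L0 2),
    max (max T1 T2) (max T5 (max T6 (max (Real.exp y0) (Real.exp 1)))), by positivity,
    (hC5.trans (le_max_left _ _)).trans (le_max_left _ _), ?_⟩
  intro T R L e hT hL hR he he3 F hF hW1
  obtain ⟨C, hC⟩ : ∃ C : ℝ, C = max (max C5 (1 / cl * Real.exp (18 / w0))) (max L0 2) := ⟨_, rfl⟩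
  rw [← hC] at hL ⊢
  have hC1 : 1 / cl * Real.exp (18 / w0) ≤ C := by rw [hC]; exact (le_max_right _ _).trans (le_max_left _ _)
  have hC0 : 1 ≤ C := by rw [hC]; exact (hC5.trans (le_max_left _ _)).trans (le_max_left _ _)
  have hLC5 : C5 ≤ L := le_trans (by rw [hC]; exact (le_max_left _ _).trans (le_max_left _ _)) hL
  have hLL0 : L0 ≤ L := le_trans (by rw [hC]; exact (le_max_left _ _).trans (le_max_right _ _)) hL
  have hL2 : 2 ≤ L := le_trans (by rw [hC]; exact (le_max_right _ _).trans (le_max_right _ _)) hL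
  simp only [max_le_iff] at hT
  obtain ⟨⟨hTT1, hTT2⟩, hTT5, hTT6, hTy, hTe⟩ := hT
  obtain ⟨b1, b2, b3, b4, b5, b6, b7, b8⟩ := rng_basic hk hkd hd hd1 hTe hL2 hR
  have hT0 : 0 < T := (Real.exp_pos 1).trans_le hTe
  have hL0' : 0 < L := by linarith
  have hR0 : 0 < R := by linarith
  have hyT : y0 ≤ Real.log T := by rw [← Real.log_exp y0]; exact Real.log_le_log (Real.exp_pos _) hTy
  obtain ⟨W, hWd⟩ : ∃ W : ℝ, W = Wf k T F := ⟨_, rfl⟩
  rw [← hWd] at hW1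
  have hW0 : 0 < W := hw.trans_le hW1
  have hWs : W = ∑ p ∈ QX (Xo k T R L), ‖wo k T F p‖ ^ 2 / p := hWd
  have hVi : 1 / W ≤ 1 / w0 := one_div_le_one_div_of_le hw hW1
  -- the coefficients
  obtain ⟨x, hx⟩ : ∃ x : ℝ, x = C5 * Real.log T ^ (-d) := ⟨_, rfl⟩
  have hlT0 : 0 < Real.log T := by linarith
  have hx0 : 0 < x := by rw [hx]; positivity
  have hcoef : ∀ p ∈ QX (Xo k T R L), ‖wo k T F p‖ ^ 2 / p ≤ x := by
    intro p hp
    refine (h5 T R L hTT5 hLC5 hR F p hp).trans ?_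
    rw [hx, mul_assoc]
    refine mul_le_mul_of_nonneg_left ?_ (by linarith)
    have hB2 : F.B ≤ Real.log T ^ (d / 2) := hF.trans (Real.rpow_le_rpow hL0'.le b3 (by positivity))
    have hB0 : 0 ≤ F.B := by
      unfold Fam.B
      have : 0 ≤ ∑ i, |F.c i| := Finset.sum_nonneg fun i _ => abs_nonneg _
      linarith
    calc F.B ^ 2 * Real.log T ^ (-(2 * d)) ≤ (Real.log T ^ (d / 2)) ^ 2 * Real.log T ^ (-(2 * d)) := by gcongr
      _ = Real.log T ^ (-d) := by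
        rw [← Real.rpow_natCast, ← Real.rpow_mul hlT0.le, ← Real.rpow_add hlT0]
        congr 1
        push_cast
        ring
  -- the length of the sums
  have hM0 : 0 < Pool.Agent.Helper62.OP.Ms k R L := lt_of_lt_of_le (Real.rpow_pos_of_pos hL0' _) b8
  obtain ⟨Y, hY⟩ : ∃ Y : ℝ, Y = Real.exp (Xo k T R L) := ⟨_, rfl⟩
  have hX0 : 0 ≤ Xo k T R L := by unfold Xo XX; positivity
  have hY1 : 1 ≤ Y := by rw [hY]; exact Real.one_le_exp hX0
  have hnL : ∀ n : ℕ, (n : ℝ) ≤ K * (1 + 1 / W) → (n : ℝ) ≤ N0 := by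
    intro n hn
    rw [hN0]
    refine hn.trans ?_
    have hK0 : (0 : ℝ) ≤ K := by positivity
    refine mul_le_mul_of_nonneg_left ?_ hK0
    linarith
  have hYn : ∀ n : ℕ, (n : ℝ) ≤ K * (1 + 1 / W) → Y ^ (n + 1) ≤ T ^ (1 / 16 : ℝ) := by
    intro n hn
    have hn1 := hnL n hn
    have hn2 := hL0 L hLL0
    rw [hY, ← Real.exp_nat_mul, Real.rpow_def_of_pos hT0]
    refine Real.exp_le_exp.mpr ?_
    unfold Xo XX
    rw [← mul_div_assoc, div_le_iff₀ hM0]
    push_cast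
    have hn3 : 16 * ((n : ℝ) + 1) ≤ Pool.Agent.Helper62.OP.Ms k R L := by linarith
    nlinarith
  have hyy := hy0 (Real.log T) hyT
  have hn4 : ∀ n : ℕ, (n : ℝ) ≤ K * (1 + 1 / W) → 4 * (n : ℝ) ^ 2 * x ≤ W := by
    intro n hn
    have hn1 := hnL n hn
    have hld : 0 < Real.log T ^ d := Real.rpow_pos_of_pos hlT0 _
    rw [div_le_iff₀ hw] at hyy
    calc 4 * (n : ℝ) ^ 2 * x ≤ 4 * N0 ^ 2 * x := by gcongr
      _ = 4 * N0 ^ 2 * C5 * Real.log T ^ (-d) := by rw [hx]; ring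
      _ ≤ (Real.log T ^ d * w0) * Real.log T ^ (-d) := by
        refine mul_le_mul_of_nonneg_right hyy (Real.rpow_nonneg hlT0.le _)
      _ = w0 * (Real.log T ^ d * Real.log T ^ (-d)) := by ring
      _ = w0 := by rw [← Real.rpow_add hlT0]; simp
      _ ≤ W := hW1
  -- a crude bound of the variance
  have hx1 : x ≤ C5 := by
    rw [hx]
    have : Real.log T ^ (-d) ≤ 1 := Real.rpow_le_one_of_one_le_of_nonpos b1 (by linarith)
    nlinarith
  have hWc : W ≤ 2 * C5 * T ^ (1 / 16 : ℝ) := by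
    have hY2 : Y ≤ T ^ (1 / 16 : ℝ) := by
      have h := hYn 0 (by push_cast; positivity)
      simpa using h
    calc W = ∑ p ∈ QX (Xo k T R L), ‖wo k T F p‖ ^ 2 / p := hWs
      _ ≤ ∑ p ∈ QX (Xo k T R L), C5 := Finset.sum_le_sum fun p hp => (hcoef p hp).trans hx1
      _ = (QX (Xo k T R L)).card * C5 := by rw [Finset.sum_const, nsmul_eq_mul]
      _ ≤ (2 * Y) * C5 := by
        rw [hY]
        refine mul_le_mul_of_nonneg_right (qx_card hX0) (by linarith)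
      _ ≤ (2 * T ^ (1 / 16 : ℝ)) * C5 := by
        refine mul_le_mul_of_nonneg_right (by linarith) (by linarith)
      _ = _ := by ring
  have hK1 : (1 : ℝ) ≤ K := by exact_mod_cast hK
  have hodd0 : Real.sqrt W ≤ e / K * (1 / 2) * T ^ (1 / 4 : ℝ) := by
    have hR1 : 0 ≤ 1 / (4 * K) * T ^ (1 / 4 : ℝ) := by positivity
    have hR2 : 1 / (4 * K) * T ^ (1 / 4 : ℝ) ≤ e / K * (1 / 2) * T ^ (1 / 4 : ℝ) := by
      refine mul_le_mul_of_nonneg_right ?_ (by positivity)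
      rw [div_mul_div_comm, div_le_div_iff₀ (by positivity) (by positivity)]
      nlinarith
    refine le_trans ?_ hR2
    rw [Real.sqrt_le_left hR1]
    refine hWc.trans ?_
    have hT7 := hT6 T hTT6
    have e1 : (T ^ (1 / 4 : ℝ)) ^ 2 = T ^ (7 / 16 : ℝ) * T ^ (1 / 16 : ℝ) := by
      rw [← Real.rpow_natCast, ← Real.rpow_mul hT0.le, ← Real.rpow_add hT0]
      norm_num
    rw [mul_pow, e1, div_pow, ← mul_assoc]
    refine mul_le_mul_of_nonneg_right ?_ (by positivity)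
    rw [div_mul_eq_mul_div, le_div_iff₀ (by positivity)]
    nlinarith
  -- the localisation
  have hloc := h3 T (2 * T) T W e (fun t => Pf k T F t) (dc_cont _ _) hT0 hW0 (by linarith) he3 ?_ ?_ ?_
  · have hexp : 1 / C * T ≤ cl * Real.exp (-((1 + 1) * e ^ 2 / W)) * T := by
      refine mul_le_mul_of_nonneg_right ?_ hT0.le
      have hq : (1 + 1) * e ^ 2 / W ≤ 18 / w0 := by
        calc (1 + 1) * e ^ 2 / W ≤ 18 / W := by
              refine div_le_div_of_nonneg_right ?_ hW0.le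
              nlinarith
          _ = 18 * (1 / W) := by ring
          _ ≤ 18 * (1 / w0) := by linarith
          _ = _ := by ring
      have h6 : Real.exp (-(18 / w0)) ≤ Real.exp (-((1 + 1) * e ^ 2 / W)) := Real.exp_le_exp.mpr (by linarith)
      refine le_trans ?_ (mul_le_mul_of_nonneg_left h6 hcl.le)
      have hp : 0 < 1 / cl * Real.exp (18 / w0) := by positivity
      have h7 : 1 / C ≤ 1 / (1 / cl * Real.exp (18 / w0)) := one_div_le_one_div_of_le hp hC1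
      refine h7.trans (le_of_eq ?_)
      rw [Real.exp_neg]
      field_simp
    exact ⟨(ENNReal.ofReal_le_ofReal hexp).trans hloc.1, (ENNReal.ofReal_le_ofReal hexp).trans hloc.2⟩
  · intro n hn
    have h := (h1 T Y hTT1 hY1 (QX (Xo k T R L)) (wo k T F) n x (fun p hp => by rw [hY]; exact qx_mem hp) (hYn n hn) hcoef
      (by rw [← hWs]; exact hn4 n hn) (by rw [← hWs]; exact hW0)).1
    rw [mul_assoc, fac_gm, ← hWs] at h
    refine le_trans (le_of_eq ?_) h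
    ring
  · intro n hn
    have h := (h1 T Y hTT1 hY1 (QX (Xo k T R L)) (wo k T F) n x (fun p hp => by rw [hY]; exact qx_mem hp) (hYn n hn) hcoef
      (by rw [← hWs]; exact hn4 n hn) (by rw [← hWs]; exact hW0)).2
    rw [mul_assoc, fac_gm, ← hWs] at h
    refine h.trans (le_of_eq ?_)
    ring
  · intro n hn
    have h := h2 T Y hTT2 hY1 (QX (Xo k T R L)) (wo k T F) n (fun p hp => by rw [hY]; exact qx_mem hp) (hYn n hn)
    refine h.trans ?_
    have hs : Real.sqrt (∑ p ∈ QX (Xo k T R L), ‖wo k T F p‖ ^ 2 / p) ^ (2 * n + 1) = W ^ n * Real.sqrt W := by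
      rw [← hWs, pow_succ, pow_mul, Real.sq_sqrt hW0.le]
    rw [hs]
    have e2 : T ^ (3 / 4 : ℝ) * T ^ (1 / 4 : ℝ) = T := by
      rw [← Real.rpow_add hT0]
      norm_num
    have hg := gm_ge n
    have hWn : 0 < W ^ n := by positivity
    have h34 : 0 < T ^ (3 / 4 : ℝ) := by positivity
    have hK0 : (0:ℝ) < K := by linarith
    calc T ^ (3 / 4 : ℝ) * (W ^ n * Real.sqrt W) ≤ T ^ (3 / 4 : ℝ) * (W ^ n * (e / K * (1 / 2) * T ^ (1 / 4 : ℝ))) := by gcongr
      _ = e / K * (1 / 2 * W ^ n) * (T ^ (3 / 4 : ℝ) * T ^ (1 / 4 : ℝ)) := by ring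
      _ = e / K * (1 / 2 * W ^ n) * T := by rw [e2]
      _ ≤ e / K * (gm n * W ^ n) * T := by gcongr

end Pool.Agent.Helper60.TL
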