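import Pool.Agent.Helper28.TL.Defs
import Pool.Agent.Helper62.OP.Core

/-!
# TL, block T6a: from families of closed intervals to order-connected sets
-/

set_option autoImplicit false
open MeasureTheory Set Filter Topology
open Pool.Agent.Helper57.Zeta Pool.Agent.Helper57.LH Pool.Agent.Helper57.ED
open Pool.Agent.Helper93.UG (zc sp)
open Pool.Agent.Helper57.NS (cnt)
open Pool.Agent.Helper62.OP (cnt_congr hit_null mem_iff_of)
open Pool.Agent.Helper28.TL
open scoped ContDiff

namespace Pool.Agent.Helper60.TL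

/-- the integral of a continuous function over an order-connected set -/
theorem int_ord {J : Set ℝ} (hJ : J.OrdConnected) (hne : J.Nonempty) {L : ℝ} (hL : J ⊆ Icc (-L) L) {f : ℝ → ℝ} :
    ∫ x in (-L)..L, J.indicator 1 x * f x = ∫ x in (sInf J)..(sSup J), f x := by
  have hb : BddBelow J := bddBelow_Icc.mono hL
  have ha : BddAbove J := bddAbove_Icc.mono hL
  obtain ⟨y, hy⟩ := hne
  have hLL : -L ≤ L := (hL hy).1.trans (hL hy).2
  have h1 : -L ≤ sInf J := le_csInf ⟨y, hy⟩ fun x hx => (hL hx).1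
  have h2 : sSup J ≤ L := csSup_le ⟨y, hy⟩ fun x hx => (hL hx).2
  have h3 : sInf J ≤ sSup J := (csInf_le hb hy).trans (le_csSup ha hy)
  have e1 : ∫ x in (-L)..L, J.indicator 1 x * f x = ∫ x in (-L)..L, (Icc (sInf J) (sSup J)).indicator f x := by
    refine intervalIntegral.integral_congr_ae ?_
    have n1 : ∀ᵐ x : ℝ, x ≠ sInf J := by
      rw [ae_iff]
      simp
    have n2 : ∀ᵐ x : ℝ, x ≠ sSup J := by
      rw [ae_iff]
      simp
    filter_upwards [n1, n2] with x hx1 hx2 _
    have h4 := mem_iff_of hJ ⟨y, hy⟩ hb ha hx1 hx2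
    by_cases h5 : x ∈ J
    · rw [indicator_of_mem h5, indicator_of_mem (h4.1 h5)]
      simp
    · rw [indicator_of_notMem h5, indicator_of_notMem fun h => h5 (h4.2 h)]
      simp
  rw [e1, intervalIntegral.integral_of_le hLL, intervalIntegral.integral_of_le h3, setIntegral_indicator measurableSet_Icc]
  refine setIntegral_congr_set ?_
  have h5 : (Icc (-L) L ∩ Icc (sInf J) (sSup J) : Set ℝ) = Icc (sInf J) (sSup J) := by
    refine inter_eq_self_of_subset_right (Icc_subset_Icc h1 h2)
  have h6 : (Ioc (-L) L ∩ Icc (sInf J) (sSup J) : Set ℝ) =ᵐ[volume] (Icc (-L) L ∩ Icc (sInf J) (sSup J) : Set ℝ) :=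
    Ioc_ae_eq_Icc.inter (ae_eq_refl _)
  rw [h5] at h6
  exact h6.trans Ioc_ae_eq_Icc.symm

/-- the increments of the test function -/
theorem int_psi {Psi : ℝ → ℝ} (hP : ContDiff ℝ ∞ Psi) (R a b : ℝ) :
    ∫ x in a..b, deriv Psi (x / R) / R = Psi (b / R) - Psi (a / R) := by
  have hP1 : ContDiff ℝ 1 Psi := hP.of_le (by norm_cast)
  have hd : ∀ x, HasDerivAt Psi (deriv Psi x) x := fun x => (hP1.differentiable (by norm_num) x).hasDerivAt
  have hc : Continuous (deriv Psi) := hP1.continuous_deriv (by norm_num)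
  have h1 : ∀ x ∈ uIcc a b, HasDerivAt (fun x : ℝ => Psi (x / R)) (deriv Psi (x / R) / R) x := by
    intro x _
    have h2 : HasDerivAt (fun x : ℝ => x / R) (1 / R) x := (hasDerivAt_id x).div_const R
    have h3 := (hd (x / R)).comp x h2
    rwa [mul_one_div] at h3
  refine intervalIntegral.integral_eq_sub_of_hasDerivAt h1 ?_
  exact Continuous.intervalIntegrable (by fun_prop) _ _

/-- T6a over T5 -/
theorem coreG_of {d : ℝ} (hd : 0 < d) (hd1 : d ≤ 1) {Psi : ℝ → ℝ} (hP : ContDiff ℝ ∞ Psi) {κ : ℝ}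
    (hopt : ∃ c C T₀ : ℝ, 0 < c ∧ 1 ≤ C ∧ ∀ T R L : ℝ, T₀ ≤ T → C ≤ L → Rng d T R L →
      ∀ (F : Fam R L) (A : ℝ), F.B ≤ L ^ c → κ ≤ |Ev F (fun x => Psi (x / R))| →
        ENNReal.ofReal ((L / R) ^ (-d) * T) ≤ volume {t : ℝ | T ≤ t ∧ t ≤ 2 * T ∧ 1 < |St F T t - A|}) :
    ∃ c C T₀ : ℝ, 0 < c ∧ 1 ≤ C ∧ ∀ T R L : ℝ, T₀ ≤ T → C ≤ L → Rng d T R L →
    ∀ (n : ℕ) (J : Fin n → Set ℝ) (v : Fin n → ℝ) (A : ℝ), (∀ i, (J i).OrdConnected) → (∀ i, J i ⊆ Icc (-L) L) →
      ∑ i, |v i| ≤ L ^ c → κ ≤ |∫ x in (-L)..L, (∑ i, v i * (J i).indicator 1 x) * (deriv Psi (x / R) / R)| →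
      ENNReal.ofReal ((L / R) ^ (-d) * T) ≤
        volume {t : ℝ | T ≤ t ∧ t ≤ 2 * T ∧ 1 < |∑ i, v i * cnt T t (J i) - A|} := by
  obtain ⟨c, C, T₀, hc, hC, H⟩ := hopt
  obtain ⟨C1, hC1⟩ : ∃ C1 : ℝ, ∀ L : ℝ, C1 ≤ L → 3 ≤ L ^ (c / 2) :=
    eventually_atTop.1 ((tendsto_rpow_atTop (show (0:ℝ) < c / 2 by linarith)).eventually_ge_atTop 3)
  refine ⟨c / 2, max C C1, max T₀ 3, by linarith, hC.trans (le_max_left _ _), ?_⟩
  intro T R L hT hL hR n J v A hJ hJL hv hint
  have hT0 : T₀ ≤ T := (le_max_left _ _).trans hT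
  have hT3 : (3 : ℝ) ≤ T := (le_max_right _ _).trans hT
  have hLC : C ≤ L := (le_max_left _ _).trans hL
  have hL1 : 1 ≤ L := hC.trans hLC
  have hL2 : 3 ≤ L ^ (c / 2) := hC1 L ((le_max_right _ _).trans hL)
  have hLp : 0 < L := by linarith
  have hR0 : 0 < R := lt_of_lt_of_le (Real.rpow_pos_of_pos hLp d) hR.2.1
  have hRL : R ≤ L := by
    refine hR.2.2.trans ?_
    calc L ^ (1 - d) ≤ L ^ (1 : ℝ) := Real.rpow_le_rpow_of_exponent_le hL1 (by linarith)
      _ = L := Real.rpow_one L
  have hs : sp T ≠ 0 := by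
    unfold sp
    have := Real.log_pos (show (1:ℝ) < T by linarith)
    positivity
  have hbb : ∀ i, BddBelow (J i) := fun i => bddBelow_Icc.mono (hJL i)
  have hba : ∀ i, BddAbove (J i) := fun i => bddAbove_Icc.mono (hJL i)
  classical
  obtain ⟨a', ha'⟩ : ∃ a' : Fin n → ℝ, a' = fun i => if (J i).Nonempty then sInf (J i) else L := ⟨_, rfl⟩
  obtain ⟨b', hb'⟩ : ∃ b' : Fin n → ℝ, b' = fun i => if (J i).Nonempty then sSup (J i) else L := ⟨_, rfl⟩
  obtain ⟨c', hc'⟩ : ∃ c' : Fin n → ℝ, c' = fun i => if (J i).Nonempty then v i else 0 := ⟨_, rfl⟩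
  have hab : ∀ i, a' i ≤ b' i := by
    intro i
    rw [ha', hb']
    by_cases h : (J i).Nonempty
    · simp only [if_pos h]
      obtain ⟨x, hx⟩ := h
      exact (csInf_le (hbb i) hx).trans (le_csSup (hba i) hx)
    · simp only [if_neg h]
      exact le_rfl
  have hinn : ∀ i, -L ≤ a' i ∧ b' i ≤ L := by
    intro i
    rw [ha', hb']
    by_cases h : (J i).Nonempty
    · simp only [if_pos h]
      exact ⟨le_csInf h fun x hx => (hJL i hx).1, csSup_le h fun x hx => (hJL i hx).2⟩
    · simp only [if_neg h]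
      exact ⟨by linarith, le_rfl⟩
  let F : Fam R L :=
    { n := n + 1
      a := Fin.cons (-R) a'
      b := Fin.cons R b'
      c := Fin.cons (-1) c'
      le := by
        intro i
        refine Fin.cases ?_ (fun j => ?_) i
        · rw [Fin.cons_zero, Fin.cons_zero]
          linarith
        · rw [Fin.cons_succ, Fin.cons_succ]
          exact hab j
      inn := by
        intro i
        refine Fin.cases ?_ (fun j => ?_) i
        · rw [Fin.cons_zero, Fin.cons_zero]
          exact ⟨by linarith, hRL⟩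
        · rw [Fin.cons_succ, Fin.cons_succ]
          exact hinn j }
  have hB : F.B ≤ L ^ c := by
    have h0 : F.B = 1 + ∑ i : Fin (n + 1), |(Fin.cons (-1) c' : Fin (n + 1) → ℝ) i| := rfl
    have h1 : F.B ≤ 2 + ∑ i, |v i| := by
      rw [h0, Fin.sum_univ_succ, Fin.cons_zero]
      have h2 : ∑ i : Fin n, |(Fin.cons (-1) c' : Fin (n + 1) → ℝ) i.succ| ≤ ∑ i, |v i| := by
        refine Finset.sum_le_sum fun i _ => ?_
        rw [Fin.cons_succ, hc']
        simp only
        split_ifs
        · exact le_rfl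
        · rw [abs_zero]
          exact abs_nonneg _
      have h3 : |(-1 : ℝ)| = 1 := by norm_num
      rw [h3]
      linarith
    have h2 : L ^ c = L ^ (c / 2) * L ^ (c / 2) := by
      rw [← Real.rpow_add hLp]
      congr 1
      ring
    rw [h2]
    nlinarith
  -- the increment of the test function
  have hEv : Ev F (fun x => Psi (x / R)) =
      ∫ x in (-L)..L, (∑ i, v i * (J i).indicator 1 x) * (deriv Psi (x / R) / R) := by
    have hP1 : ContDiff ℝ 1 Psi := hP.of_le (by norm_cast)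
    have hcont : Continuous (deriv Psi) := hP1.continuous_deriv (by norm_num)
    have hφ : Continuous fun x : ℝ => deriv Psi (x / R) / R := by fun_prop
    have h0 : Ev F (fun x => Psi (x / R)) = (Psi (R / R) - Psi (-R / R)) + ∑ i : Fin (n + 1),
        (Fin.cons (-1) c' : Fin (n + 1) → ℝ) i * (Psi ((Fin.cons R b' : Fin (n + 1) → ℝ) i / R) -
          Psi ((Fin.cons (-R) a' : Fin (n + 1) → ℝ) i / R)) := rfl
    rw [h0, Fin.sum_univ_succ]
    simp only [Fin.cons_zero, Fin.cons_succ]
    have h1 : ∀ i, c' i * (Psi (b' i / R) - Psi (a' i / R)) =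
        ∫ x in (-L)..L, v i * ((J i).indicator 1 x * (deriv Psi (x / R) / R)) := by
      intro i
      rw [intervalIntegral.integral_const_mul, hc', hb', ha']
      by_cases h : (J i).Nonempty
      · simp only [if_pos h]
        rw [int_ord (hJ i) h (hJL i), int_psi hP]
      · simp only [if_neg h]
        have h3 : J i = ∅ := not_nonempty_iff_eq_empty.1 h
        rw [h3]
        simp
    have h2 : ∫ x in (-L)..L, (∑ i, v i * (J i).indicator 1 x) * (deriv Psi (x / R) / R) =
        ∑ i, ∫ x in (-L)..L, v i * ((J i).indicator 1 x * (deriv Psi (x / R) / R)) := by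
      rw [← intervalIntegral.integral_finsetSum]
      · refine intervalIntegral.integral_congr fun x _ => ?_
        rw [Finset.sum_mul]
        refine Finset.sum_congr rfl fun i _ => ?_
        ring
      · intro i _
        refine IntervalIntegrable.const_mul ?_ _
        rw [intervalIntegrable_iff]
        have h4 : (fun x : ℝ => (J i).indicator 1 x * (deriv Psi (x / R) / R)) =
            (J i).indicator fun x : ℝ => deriv Psi (x / R) / R := by
          funext x
          by_cases h5 : x ∈ J i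
          · rw [indicator_of_mem h5, indicator_of_mem h5]
            simp
          · rw [indicator_of_notMem h5, indicator_of_notMem h5]
            simp
        rw [h4]
        exact ((hφ.intervalIntegrable _ _).def').indicator (hJ i).measurableSet
    rw [h2]
    rw [Finset.sum_congr rfl fun i _ => h1 i]
    ring
  have h1 := H T R L hT0 hLC hR F A hB (by rw [hEv]; exact hint)
  refine h1.trans ?_
  -- the null set
  set N : Set ℝ := (⋃ i, {t : ℝ | ∃ ρ : ZS, ((ρ : ℂ).im - t) / sp T = sInf (J i)}) ∪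
    ⋃ i, {t : ℝ | ∃ ρ : ZS, ((ρ : ℂ).im - t) / sp T = sSup (J i)} with hN
  have hN0 : volume N = 0 := by
    rw [hN]
    exact measure_union_null (measure_iUnion_null fun i => hit_null hs _) (measure_iUnion_null fun i => hit_null hs _)
  have hsub : {t : ℝ | T ≤ t ∧ t ≤ 2 * T ∧ 1 < |St F T t - A|} ⊆
      {t : ℝ | T ≤ t ∧ t ≤ 2 * T ∧ 1 < |∑ i, v i * cnt T t (J i) - A|} ∪ N := by
    rintro t ⟨ht1, ht2, ht3⟩
    by_cases hn : t ∈ N
    · exact Or.inr hn
    · left
      refine ⟨ht1, ht2, ?_⟩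
      have h2 : St F T t = ∑ i, v i * cnt T t (J i) := by
        have h0 : St F T t = cnt T t (Icc (-R) R) + ∑ i : Fin (n + 1), (Fin.cons (-1) c' : Fin (n + 1) → ℝ) i *
          cnt T t (Icc ((Fin.cons (-R) a' : Fin (n + 1) → ℝ) i) ((Fin.cons R b' : Fin (n + 1) → ℝ) i)) := rfl
        rw [h0, Fin.sum_univ_succ]
        simp only [Fin.cons_zero, Fin.cons_succ]
        have h1 : ∀ i, c' i * cnt T t (Icc (a' i) (b' i)) = v i * cnt T t (J i) := by
          intro i
          rw [hc', hb', ha']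
          by_cases h : (J i).Nonempty
          · simp only [if_pos h]
            congr 1
            refine cnt_congr fun ρ => ?_
            refine (mem_iff_of (hJ i) h (hbb i) (hba i) ?_ ?_).symm
            · intro h3
              exact hn (Or.inl (mem_iUnion.2 ⟨i, ρ, h3⟩))
            · intro h3
              exact hn (Or.inr (mem_iUnion.2 ⟨i, ρ, h3⟩))
          · simp only [if_neg h]
            rw [zero_mul]
            have h3 : J i = ∅ := not_nonempty_iff_eq_empty.1 h
            rw [h3]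
            unfold cnt zc
            simp
        rw [Finset.sum_congr rfl fun i _ => h1 i]
        ring
      rw [← h2]
      exact ht3
  calc volume {t : ℝ | T ≤ t ∧ t ≤ 2 * T ∧ 1 < |St F T t - A|}
      ≤ volume ({t : ℝ | T ≤ t ∧ t ≤ 2 * T ∧ 1 < |∑ i, v i * cnt T t (J i) - A|} ∪ N) :=
        measure_mono hsub
    _ ≤ volume {t : ℝ | T ≤ t ∧ t ≤ 2 * T ∧ 1 < |∑ i, v i * cnt T t (J i) - A|} + volume N :=
        measure_union_le _ _
    _ = _ := by rw [hN0, add_zero]

end Pool.Agent.Helper60.TL
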